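import Pool.Agent.H31.P3.End

/-! # Square factors of the values of a quadratic polynomial at shifted differences -/

set_option autoImplicit false

open Finset Filter

namespace Pool.Agent.H25.P5

open Pool.Agent.H31.P3 (class_card ineq)

/-- the roots modulo the square of a prime, in an interval -/
lemma roots_cardG (a b c g : ℤ) (M p : ℕ) (hp : p.Prime)
    (hac : ¬ (p : ℤ) ∣ a * (b ^ 2 - 4 * a * c)) :
    ((Icc 1 M).filter (fun n : ℕ => (p : ℤ) ^ 2 ∣ a * (g + (n : ℤ)) ^ 2 + b * (g + (n : ℤ)) + c)).card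
      ≤ 2 * (M / p ^ 2 + 1) := by
  classical
  set S := (Icc 1 M).filter
    (fun n : ℕ => (p : ℤ) ^ 2 ∣ a * (g + (n : ℤ)) ^ 2 + b * (g + (n : ℤ)) + c) with hS
  have hpZ : Prime (p : ℤ) := Nat.prime_iff_prime_int.1 hp
  have hd : 0 < p ^ 2 := by
    have := hp.pos
    positivity
  have ha : ¬ (p : ℤ) ∣ a := fun h => hac (h.mul_right _)
  have hD : ¬ (p : ℤ) ∣ b ^ 2 - 4 * a * c := fun h => hac (h.mul_left _)
  rcases S.eq_empty_or_nonempty with h0 | ⟨n0, hn0⟩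
  · rw [h0, card_empty]
    exact Nat.zero_le _
  have hmem : ∀ n ∈ S, n ≤ M ∧ (p : ℤ) ^ 2 ∣ a * (g + (n : ℤ)) ^ 2 + b * (g + (n : ℤ)) + c := by
    intro n hn
    rw [hS, mem_filter, mem_Icc] at hn
    exact ⟨hn.1.2, hn.2⟩
  have hcopa : IsCoprime ((p : ℤ) ^ 2) a := IsCoprime.pow_left ((Prime.coprime_iff_not_dvd hpZ).2 ha)
  -- the second factor
  set T : ℕ → ℤ := fun n => a * (2 * g + n + n0) + b with hT
  have hsplit : ∀ n ∈ S, ((p ^ 2 : ℕ) : ℤ) ∣ (n : ℤ) - n0 ∨ ((p ^ 2 : ℕ) : ℤ) ∣ T n := by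
    intro n hn
    have h1 : (p : ℤ) ^ 2 ∣ ((n : ℤ) - n0) * T n := by
      have a3 := dvd_sub (hmem n hn).2 (hmem n0 hn0).2
      have e1 : a * (g + (n : ℤ)) ^ 2 + b * (g + (n : ℤ)) + c -
          (a * (g + (n0 : ℤ)) ^ 2 + b * (g + (n0 : ℤ)) + c) = ((n : ℤ) - n0) * T n := by
        simp only [hT]
        ring
      rw [e1] at a3
      exact a3
    push_cast
    by_cases h3 : (p : ℤ) ∣ (n : ℤ) - n0
    · left
      have h4 : ¬ (p : ℤ) ∣ T n := by
        intro h4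
        apply hD
        have h5 : (p : ℤ) ∣ 2 * a * (g + n0) + b := by
          have := dvd_sub h4 (h3.mul_left a)
          have e1 : T n - a * ((n : ℤ) - n0) = 2 * a * (g + n0) + b := by
            simp only [hT]
            ring
          rwa [e1] at this
        have h6 : (p : ℤ) ∣ a * (g + (n0 : ℤ)) ^ 2 + b * (g + (n0 : ℤ)) + c :=
          (dvd_pow_self _ two_ne_zero).trans (hmem n0 hn0).2
        have h7 := dvd_sub (h5.mul_left (2 * a * (g + n0) + b)) (h6.mul_left (4 * a))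
        have e2 : (2 * a * (g + n0) + b) * (2 * a * (g + n0) + b) -
            4 * a * (a * (g + (n0 : ℤ)) ^ 2 + b * (g + (n0 : ℤ)) + c) = b ^ 2 - 4 * a * c := by ring
        rwa [e2] at h7
      have hcop : IsCoprime ((p : ℤ) ^ 2) (T n) := by
        apply IsCoprime.pow_left
        exact (Prime.coprime_iff_not_dvd hpZ).2 h4
      exact hcop.dvd_of_dvd_mul_right h1
    · right
      have hcop : IsCoprime ((p : ℤ) ^ 2) ((n : ℤ) - n0) := by
        apply IsCoprime.pow_left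
        exact (Prime.coprime_iff_not_dvd hpZ).2 h3
      exact hcop.dvd_of_dvd_mul_left h1
  have hcov : S ⊆ (S.filter (fun n => ((p ^ 2 : ℕ) : ℤ) ∣ (n : ℤ) - n0)) ∪
      (S.filter (fun n => ((p ^ 2 : ℕ) : ℤ) ∣ T n)) := by
    intro n hn
    rcases hsplit n hn with h | h
    · exact mem_union_left _ (mem_filter.2 ⟨hn, h⟩)
    · exact mem_union_right _ (mem_filter.2 ⟨hn, h⟩)
  have hcong : ∀ n n' : ℕ, ((p ^ 2 : ℕ) : ℤ) ∣ (n : ℤ) - n' → n % p ^ 2 = n' % p ^ 2 := by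
    intro n n' h
    have : n ≡ n' [MOD p ^ 2] := by
      apply Nat.ModEq.symm
      exact (Nat.modEq_iff_dvd).2 h
    exact this
  have c1 := class_card M (p ^ 2) hd (S.filter (fun n => ((p ^ 2 : ℕ) : ℤ) ∣ (n : ℤ) - n0))
    (fun n hn => (hmem n (mem_filter.1 hn).1).1) (by
      intro n hn n' hn'
      apply hcong
      have := dvd_sub (mem_filter.1 hn).2 (mem_filter.1 hn').2
      have e1 : (n : ℤ) - n0 - (n' - n0) = n - n' := by ring
      rwa [e1] at this)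
  have c2 := class_card M (p ^ 2) hd (S.filter (fun n => ((p ^ 2 : ℕ) : ℤ) ∣ T n))
    (fun n hn => (hmem n (mem_filter.1 hn).1).1) (by
      intro n hn n' hn'
      apply hcong
      have := dvd_sub (mem_filter.1 hn).2 (mem_filter.1 hn').2
      have e1 : T n - T n' = a * ((n : ℤ) - n') := by
        simp only [hT]
        ring
      rw [e1] at this
      push_cast at this ⊢
      exact hcopa.dvd_of_dvd_mul_left this)
  have h := (card_le_card hcov).trans (card_union_le _ _)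
  omega

lemma ineq2 : ∀ᶠ N : ℕ in atTop, 4 * (N : ℝ) ^ (0.9 : ℝ) * (1 + Real.log N) +
    2 * (N : ℝ) ^ (0.99 : ℝ) ≤ (N : ℝ) ^ (0.996 : ℝ) := by
  have h1 : Tendsto (fun N : ℕ => (N : ℝ) ^ (0.001 : ℝ)) atTop atTop :=
    (tendsto_rpow_atTop (by norm_num)).comp tendsto_natCast_atTop_atTop
  filter_upwards [h1.eventually_ge_atTop 2, eventually_ge_atTop 1, ineq] with N hN hN1 hi
  have hN1r : (1 : ℝ) ≤ N := by exact_mod_cast hN1
  have hN0 : (0 : ℝ) < N := by linarith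
  have h2 : (N : ℝ) ^ (0.996 : ℝ) = (N : ℝ) ^ (0.001 : ℝ) * (N : ℝ) ^ (0.995 : ℝ) := by
    rw [← Real.rpow_add hN0]
    norm_num
  have h3 : 0 < (N : ℝ) ^ (0.995 : ℝ) := by positivity
  have h4 : 0 < (N : ℝ) ^ (0.99 : ℝ) := by positivity
  rw [h2]
  nlinarith

open Classical in
/-- **Square factors.** For a quadratic polynomial whose discriminant is not a square, few of the
pairs of different elements of `A` have a difference `n` such that the value at `h + n` is divisible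
by the square of a prime between `N ^ 0.1` and `N ^ 0.99`. -/
theorem squaresG (a b c : ℤ) (hD : ¬ IsSquare (b ^ 2 - 4 * a * c)) : ∃ N₀ : ℕ, ∀ N : ℕ, N₀ ≤ N →
    ∀ h : ℤ, |h| ≤ N → ∀ A ⊆ Finset.Icc 1 N,
    (((A ×ˢ A).filter (fun x : ℕ × ℕ => x.1 ≠ x.2 ∧ ∃ p : ℕ, p.Prime ∧ (N : ℝ) ^ (0.1 : ℝ) < p ∧
      (p : ℝ) ≤ (N : ℝ) ^ (0.99 : ℝ) ∧
      (p : ℤ) ^ 2 ∣ a * (h + ((x.2 : ℤ) - x.1)) ^ 2 + b * (h + ((x.2 : ℤ) - x.1)) + c)).card : ℝ) ≤
      A.card * (N : ℝ) ^ (0.996 : ℝ) := by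
  have ev : ∀ᶠ N : ℕ in atTop,
      (((a * (b ^ 2 - 4 * a * c)).natAbs : ℕ) : ℝ) ≤ (N : ℝ) ^ (0.1 : ℝ) :=
    ((tendsto_rpow_atTop (by norm_num)).comp tendsto_natCast_atTop_atTop).eventually_ge_atTop _
  obtain ⟨N₀, hN₀⟩ := eventually_atTop.1 ((ineq2.and (eventually_ge_atTop 1)).and ev)
  refine ⟨N₀, fun N hN h _ A hA => ?_⟩
  obtain ⟨⟨hineq, hN1⟩, hbig⟩ := hN₀ N hN
  have hN1r : (1 : ℝ) ≤ N := by exact_mod_cast hN1
  have hN0 : (0 : ℝ) < N := by linarith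
  have h2ac : a * (b ^ 2 - 4 * a * c) ≠ 0 := by
    intro h0
    apply hD
    rcases mul_eq_zero.1 h0 with h1 | h1
    · exact ⟨b, by rw [h1]; ring⟩
    · exact ⟨0, by rw [h1]; ring⟩
  -- the bad differences
  set P : Finset ℕ := (Icc 1 ⌊(N : ℝ) ^ (0.99 : ℝ)⌋₊).filter
    (fun p => p.Prime ∧ (N : ℝ) ^ (0.1 : ℝ) < p) with hP
  have hndvd : ∀ p ∈ P, ¬ (p : ℤ) ∣ a * (b ^ 2 - 4 * a * c) := by
    intro p hp hdv
    rw [hP, mem_filter] at hp
    have h1 : p ∣ (a * (b ^ 2 - 4 * a * c)).natAbs := Int.natCast_dvd.1 hdv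
    have h2 := Nat.le_of_dvd (Int.natAbs_pos.2 h2ac) h1
    have h3 : (p : ℝ) ≤ (((a * (b ^ 2 - 4 * a * c)).natAbs : ℕ) : ℝ) := by exact_mod_cast h2
    linarith [hp.2.2]
  set Bd : Finset ℕ := (Icc 1 (2 * N)).filter (fun n : ℕ => ∃ p ∈ P,
    (p : ℤ) ^ 2 ∣ a * ((h - N) + (n : ℤ)) ^ 2 + b * ((h - N) + (n : ℤ)) + c) with hBd
  have h1 : (((A ×ˢ A).filter (fun x : ℕ × ℕ => x.1 ≠ x.2 ∧ ∃ p : ℕ, p.Prime ∧
      (N : ℝ) ^ (0.1 : ℝ) < p ∧ (p : ℝ) ≤ (N : ℝ) ^ (0.99 : ℝ) ∧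
      (p : ℤ) ^ 2 ∣ a * (h + ((x.2 : ℤ) - x.1)) ^ 2 + b * (h + ((x.2 : ℤ) - x.1)) + c)).card) ≤
      (A ×ˢ Bd).card := by
    apply card_le_card_of_injOn (fun x => (x.1, x.2 + N - x.1))
    · intro x hx
      rw [mem_coe, mem_filter, mem_product] at hx
      obtain ⟨⟨hx1, hx2⟩, -, p, hp, hp1, hp2, hdvd⟩ := hx
      have a1 := mem_Icc.1 (hA hx1)
      have a2 := mem_Icc.1 (hA hx2)
      rw [mem_coe, mem_product, hBd, mem_filter, mem_Icc]
      refine ⟨hx1, ⟨by simp only; omega, by simp only; omega⟩, p, ?_, ?_⟩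
      · rw [hP, mem_filter, mem_Icc]
        exact ⟨⟨hp.one_lt.le, Nat.le_floor hp2⟩, hp, hp1⟩
      · simp only
        have e1 : (h - N) + ((x.2 + N - x.1 : ℕ) : ℤ) = h + ((x.2 : ℤ) - x.1) := by
          rw [Nat.cast_sub (by omega)]
          push_cast
          ring
        rw [e1]
        exact hdvd
    · intro x hx y hy hxy
      rw [mem_coe, mem_filter, mem_product] at hx hy
      have a1 := mem_Icc.1 (hA hx.1.1)
      have a2 := mem_Icc.1 (hA hy.1.1)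
      simp only [Prod.mk.injEq] at hxy
      ext
      · exact hxy.1
      · omega
  have h2 : (Bd.card : ℝ) ≤ (N : ℝ) ^ (0.996 : ℝ) := by
    have b1 : Bd.card ≤ ∑ p ∈ P, 2 * (2 * N / p ^ 2 + 1) := by
      have hsub : Bd ⊆ P.biUnion (fun p => (Icc 1 (2 * N)).filter (fun n : ℕ =>
          (p : ℤ) ^ 2 ∣ a * ((h - N) + (n : ℤ)) ^ 2 + b * ((h - N) + (n : ℤ)) + c)) := by
        intro n hn
        rw [hBd, mem_filter] at hn
        obtain ⟨hn1, p, hp, hd⟩ := hn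
        rw [mem_biUnion]
        exact ⟨p, hp, mem_filter.2 ⟨hn1, hd⟩⟩
      refine (card_le_card hsub).trans (card_biUnion_le.trans (sum_le_sum fun p hp => ?_))
      exact roots_cardG a b c (h - N) (2 * N) p (mem_filter.1 hp).2.1 (hndvd p hp)
    have b2 : (Bd.card : ℝ) ≤ ∑ p ∈ P, (4 * ((N : ℝ) ^ (0.9 : ℝ) * (1 / p)) + 2) := by
      have : (Bd.card : ℝ) ≤ ((∑ p ∈ P, 2 * (2 * N / p ^ 2 + 1) : ℕ) : ℝ) := by exact_mod_cast b1
      refine this.trans ?_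
      rw [Nat.cast_sum]
      apply sum_le_sum
      intro p hp
      rw [hP, mem_filter] at hp
      have hp0 : (0 : ℝ) < p := by exact_mod_cast hp.2.1.pos
      have hp1 : (N : ℝ) ^ (0.1 : ℝ) ≤ p := hp.2.2.le
      have c1 : ((2 * N / p ^ 2 : ℕ) : ℝ) ≤ 2 * ((N : ℝ) / p ^ 2) := by
        have := @Nat.cast_div_le ℝ _ _ _ (2 * N) (p ^ 2)
        push_cast at this
        rw [mul_div_assoc] at this
        exact this
      have c2 : (N : ℝ) / p ^ 2 ≤ (N : ℝ) ^ (0.9 : ℝ) * (1 / p) := by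
        rw [div_le_iff₀ (by positivity)]
        have c3 : (N : ℝ) ^ (0.9 : ℝ) * (1 / p) * p ^ 2 = (N : ℝ) ^ (0.9 : ℝ) * p := by field_simp
        rw [c3]
        calc (N : ℝ) = (N : ℝ) ^ (0.9 : ℝ) * (N : ℝ) ^ (0.1 : ℝ) := by
              rw [← Real.rpow_add hN0]; norm_num
          _ ≤ _ := mul_le_mul_of_nonneg_left hp1 (by positivity)
      rw [Nat.cast_mul, Nat.cast_add]
      norm_num
      norm_num at c1 c2
      linarith
    refine b2.trans (le_trans ?_ hineq)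
    rw [sum_add_distrib, ← mul_sum, ← mul_sum, sum_const, nsmul_eq_mul]
    have c4 : ∑ p ∈ P, (1 : ℝ) / p ≤ 1 + Real.log N := by
      have d1 : ∑ p ∈ P, (1 : ℝ) / p ≤ ∑ p ∈ Icc 1 N, (1 : ℝ) / p := by
        apply sum_le_sum_of_subset_of_nonneg
        · intro p hp
          rw [hP, mem_filter, mem_Icc] at hp
          rw [mem_Icc]
          refine ⟨hp.1.1, hp.1.2.trans ?_⟩
          apply Nat.floor_le_of_le
          calc (N : ℝ) ^ (0.99 : ℝ) ≤ (N : ℝ) ^ (1 : ℝ) :=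
                Real.rpow_le_rpow_of_exponent_le hN1r (by norm_num)
            _ = N := Real.rpow_one _
        · intro _ _ _; positivity
      refine d1.trans ?_
      have d2 := harmonic_le_one_add_log N
      rw [harmonic_eq_sum_Icc] at d2
      push_cast at d2
      simpa [one_div] using d2
    have c5 : (P.card : ℝ) ≤ (N : ℝ) ^ (0.99 : ℝ) := by
      have d1 : P.card ≤ ⌊(N : ℝ) ^ (0.99 : ℝ)⌋₊ := by
        refine (card_filter_le _ _).trans ?_
        rw [Nat.card_Icc]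
        omega
      have d2 : (P.card : ℝ) ≤ (⌊(N : ℝ) ^ (0.99 : ℝ)⌋₊ : ℝ) := by exact_mod_cast d1
      exact d2.trans (Nat.floor_le (by positivity))
    have c6 : 0 ≤ (N : ℝ) ^ (0.9 : ℝ) := by positivity
    nlinarith
  calc (((A ×ˢ A).filter (fun x : ℕ × ℕ => x.1 ≠ x.2 ∧ ∃ p : ℕ, p.Prime ∧
      (N : ℝ) ^ (0.1 : ℝ) < p ∧ (p : ℝ) ≤ (N : ℝ) ^ (0.99 : ℝ) ∧
      (p : ℤ) ^ 2 ∣ a * (h + ((x.2 : ℤ) - x.1)) ^ 2 + b * (h + ((x.2 : ℤ) - x.1)) + c)).card : ℝ)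
      ≤ ((A ×ˢ Bd).card : ℝ) := by
        exact_mod_cast h1
    _ = A.card * Bd.card := by rw [card_product]; push_cast; ring
    _ ≤ _ := mul_le_mul_of_nonneg_left h2 (Nat.cast_nonneg _)

end Pool.Agent.H25.P5
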